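import Pool.Agent.H31.Thr.Basic

/-!
Heisenberg group of a finite field, monomial matrices, Schroedinger model (matrices).
-/

open Finset

namespace Pool.Agent.H31.Thr.Fou

set_option linter.unusedSectionVars false

/-! ### the Heisenberg group -/

section Heis

variable {F : Type} [Field F] {p : ℕ}

/-- the value of the additive character -/
def ps (ψ : Multiplicative F →* rootsOfUnity p ℂ) (a : F) : rootsOfUnity p ℂ :=
  ψ (Multiplicative.ofAdd a)

theorem ps_add (ψ : Multiplicative F →* rootsOfUnity p ℂ) (a b : F) :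
    ps ψ (a + b) = ps ψ a * ps ψ b := by
  unfold ps
  rw [ofAdd_add, map_mul]

theorem ps_zero (ψ : Multiplicative F →* rootsOfUnity p ℂ) : ps ψ 0 = 1 := by
  unfold ps
  rw [ofAdd_zero, map_one]

/-- the Heisenberg group -/
@[ext] structure Hs (ψ : Multiplicative F →* rootsOfUnity p ℂ) where
  x : F
  y : F
  z : rootsOfUnity p ℂ

variable {ψ : Multiplicative F →* rootsOfUnity p ℂ}

instance : Mul (Hs ψ) := ⟨fun a b => ⟨a.x + b.x, a.y + b.y, a.z * b.z * ps ψ (a.y * b.x)⟩⟩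
instance : One (Hs ψ) := ⟨⟨0, 0, 1⟩⟩
instance : Inv (Hs ψ) := ⟨fun a => ⟨-a.x, -a.y, a.z⁻¹ * ps ψ (a.y * a.x)⟩⟩

@[simp] theorem mul_x (a b : Hs ψ) : (a * b).x = a.x + b.x := rfl
@[simp] theorem mul_y (a b : Hs ψ) : (a * b).y = a.y + b.y := rfl
@[simp] theorem mul_z (a b : Hs ψ) : (a * b).z = a.z * b.z * ps ψ (a.y * b.x) := rfl
@[simp] theorem one_x : (1 : Hs ψ).x = 0 := rfl
@[simp] theorem one_y : (1 : Hs ψ).y = 0 := rfl
@[simp] theorem one_z : (1 : Hs ψ).z = 1 := rfl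
@[simp] theorem inv_x (a : Hs ψ) : (a⁻¹).x = -a.x := rfl
@[simp] theorem inv_y (a : Hs ψ) : (a⁻¹).y = -a.y := rfl
@[simp] theorem inv_z (a : Hs ψ) : (a⁻¹).z = a.z⁻¹ * ps ψ (a.y * a.x) := rfl

instance : Group (Hs ψ) :=
  Group.ofLeftAxioms
    (by
      intro a b c
      ext1
      · exact add_assoc _ _ _
      · exact add_assoc _ _ _
      · simp only [mul_z, mul_x, mul_y, add_mul, mul_add, ps_add]
        simp only [mul_assoc, mul_left_comm, mul_comm])
    (by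
      intro a
      ext1
      · exact zero_add _
      · exact zero_add _
      · simp only [mul_z, one_z, one_y, zero_mul, ps_zero, one_mul, mul_one])
    (by
      intro a
      ext1
      · exact neg_add_cancel _
      · exact neg_add_cancel _
      · simp only [mul_z, inv_z, inv_y, one_z]
        have h : ps ψ (a.y * a.x) * ps ψ (-a.y * a.x) = 1 := by
          rw [← ps_add, neg_mul, add_neg_cancel, ps_zero]
        calc a.z⁻¹ * ps ψ (a.y * a.x) * a.z * ps ψ (-a.y * a.x)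
            = (a.z⁻¹ * a.z) * (ps ψ (a.y * a.x) * ps ψ (-a.y * a.x)) := by
              simp only [mul_assoc, mul_left_comm]
          _ = 1 := by rw [h, inv_mul_cancel, one_mul])

/-- as a product -/
def Hs.equiv (ψ : Multiplicative F →* rootsOfUnity p ℂ) : Hs ψ ≃ F × F × rootsOfUnity p ℂ where
  toFun a := (a.x, a.y, a.z)
  invFun a := ⟨a.1, a.2.1, a.2.2⟩
  left_inv _ := rfl
  right_inv _ := rfl

instance [Finite F] [NeZero p] : Finite (Hs ψ) := Finite.of_equiv _ (Hs.equiv ψ).symm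

/-- the centre -/
def cen (ψ : Multiplicative F →* rootsOfUnity p ℂ) : rootsOfUnity p ℂ →* Hs ψ where
  toFun z := ⟨0, 0, z⟩
  map_one' := rfl
  map_mul' a b := by
    ext1
    · simp
    · simp
    · simp [ps_zero]

@[simp] theorem cen_x (z : rootsOfUnity p ℂ) : (cen ψ z).x = 0 := rfl
@[simp] theorem cen_y (z : rootsOfUnity p ℂ) : (cen ψ z).y = 0 := rfl
@[simp] theorem cen_z (z : rootsOfUnity p ℂ) : (cen ψ z).z = z := rfl

/-- the coordinates modulo the centre -/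
def crd (ψ : Multiplicative F →* rootsOfUnity p ℂ) : Hs ψ →* Multiplicative (F × F) where
  toFun a := Multiplicative.ofAdd (a.x, a.y)
  map_one' := rfl
  map_mul' _ _ := rfl

instance : Group.IsSolvable (Hs ψ) := by
  apply Group.isSolvable_of_ker_le_range (cen ψ) (crd ψ)
  intro a ha
  have h : (a.x, a.y) = ((0, 0) : F × F) := ha
  have hx : a.x = 0 := congrArg Prod.fst h
  have hy : a.y = 0 := congrArg Prod.snd h
  refine ⟨a.z, ?_⟩
  ext1
  · exact hx.symm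
  · exact hy.symm
  · rfl

end Heis

/-! ### monomial matrices -/

section Mono

variable {F : Type} [Field F]

/-- diagonal matrices -/
def dg (a : Fˣ) : Matrix.GeneralLinearGroup (Fin 2) F where
  val := !![(a : F), 0; 0, ((a⁻¹ : Fˣ) : F)]
  inv := !![((a⁻¹ : Fˣ) : F), 0; 0, (a : F)]
  val_inv := by
    rw [Matrix.mul_fin_two, Matrix.one_fin_two]
    simp
  inv_val := by
    rw [Matrix.mul_fin_two, Matrix.one_fin_two]
    simp

/-- antidiagonal matrices -/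
def ag (a : Fˣ) : Matrix.GeneralLinearGroup (Fin 2) F where
  val := !![0, -((a⁻¹ : Fˣ) : F); (a : F), 0]
  inv := !![0, ((a⁻¹ : Fˣ) : F); -(a : F), 0]
  val_inv := by
    rw [Matrix.mul_fin_two, Matrix.one_fin_two]
    simp
  inv_val := by
    rw [Matrix.mul_fin_two, Matrix.one_fin_two]
    simp

theorem dg_val (a : Fˣ) : (dg a : Matrix (Fin 2) (Fin 2) F) = !![(a : F), 0; 0, ((a⁻¹ : Fˣ) : F)] :=
  rfl

theorem ag_val (a : Fˣ) : (ag a : Matrix (Fin 2) (Fin 2) F) =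
    !![0, -((a⁻¹ : Fˣ) : F); (a : F), 0] := rfl

theorem dg_mul_dg (a b : Fˣ) : dg a * dg b = dg (a * b) := by
  apply Units.ext
  rw [Units.val_mul, dg_val, dg_val, dg_val, Matrix.mul_fin_two]
  simp [mul_comm]

theorem dg_mul_ag (t a : Fˣ) : dg t * ag a = ag (a * t⁻¹) := by
  apply Units.ext
  rw [Units.val_mul, dg_val, ag_val, ag_val, Matrix.mul_fin_two]
  simp [mul_comm]

theorem ag_mul_dg (a t : Fˣ) : ag a * dg t = ag (a * t) := by
  apply Units.ext
  rw [Units.val_mul, dg_val, ag_val, ag_val, Matrix.mul_fin_two]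
  simp [mul_comm]

theorem ag_mul_ag (a b : Fˣ) : ag a * ag b = dg (-1 * (b * a⁻¹)) := by
  apply Units.ext
  rw [Units.val_mul, dg_val, ag_val, ag_val, Matrix.mul_fin_two]
  have h : (-1 * (b * a⁻¹) : Fˣ)⁻¹ = -1 * (b⁻¹ * a) := by
    rw [mul_inv, mul_inv, inv_inv]
    congr 1
  rw [h]
  simp [mul_comm]

theorem dg_one : dg (1 : Fˣ) = 1 := by
  apply Units.ext
  rw [dg_val]
  simp [Matrix.one_fin_two]

theorem dg_inj {a b : Fˣ} (h : dg a = dg b) : a = b := by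
  have h1 := congrArg (fun M : Matrix.GeneralLinearGroup (Fin 2) F =>
    (M : Matrix (Fin 2) (Fin 2) F) 0 0) h
  exact Units.ext h1

theorem ag_inj {a b : Fˣ} (h : ag a = ag b) : a = b := by
  have h1 := congrArg (fun M : Matrix.GeneralLinearGroup (Fin 2) F =>
    (M : Matrix (Fin 2) (Fin 2) F) 1 0) h
  exact Units.ext h1

theorem dg_ne_ag (a b : Fˣ) : dg a ≠ ag b := by
  intro h
  have h1 := congrArg (fun M : Matrix.GeneralLinearGroup (Fin 2) F =>
    (M : Matrix (Fin 2) (Fin 2) F) 0 0) h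
  exact a.ne_zero h1

/-- the group of monomial matrices -/
def YG (T₀ : Subgroup Fˣ) (hT : -1 ∈ T₀) : Subgroup (Matrix.GeneralLinearGroup (Fin 2) F) where
  carrier := {M | (∃ a ∈ T₀, M = dg a) ∨ (∃ a ∈ T₀, M = ag a)}
  mul_mem' := by
    rintro M N (⟨a, ha, rfl⟩ | ⟨a, ha, rfl⟩) (⟨b, hb, rfl⟩ | ⟨b, hb, rfl⟩)
    · exact Or.inl ⟨a * b, mul_mem ha hb, dg_mul_dg a b⟩
    · exact Or.inr ⟨b * a⁻¹, mul_mem hb (inv_mem ha), dg_mul_ag a b⟩
    · exact Or.inr ⟨a * b, mul_mem ha hb, ag_mul_dg a b⟩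
    · exact Or.inl ⟨-1 * (b * a⁻¹), mul_mem hT (mul_mem hb (inv_mem ha)), ag_mul_ag a b⟩
  one_mem' := Or.inl ⟨1, one_mem _, dg_one.symm⟩
  inv_mem' := by
    rintro M (⟨a, ha, rfl⟩ | ⟨a, ha, rfl⟩)
    · refine Or.inl ⟨a⁻¹, inv_mem ha, ?_⟩
      rw [inv_eq_iff_mul_eq_one, dg_mul_dg, mul_inv_cancel, dg_one]
    · refine Or.inr ⟨-1 * a, mul_mem hT ha, ?_⟩
      rw [inv_eq_iff_mul_eq_one, ag_mul_ag]
      rw [mul_assoc (-1) a a⁻¹, mul_inv_cancel, mul_one]
      rw [neg_mul_neg, one_mul, dg_one]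

variable {T₀ : Subgroup Fˣ} {hT : -1 ∈ T₀}

theorem YG_cases (M : YG T₀ hT) : (∃ a ∈ T₀, (M : Matrix.GeneralLinearGroup (Fin 2) F) = dg a) ∨
    (∃ a ∈ T₀, (M : Matrix.GeneralLinearGroup (Fin 2) F) = ag a) := M.2

/-- the conditions used -/
def Mono (M : Matrix (Fin 2) (Fin 2) F) : Prop :=
  M 0 0 * M 1 0 = 0 ∧ M 0 1 * M 1 1 = 0 ∧ M 0 0 * M 1 1 - M 0 1 * M 1 0 = 1

theorem YG_mono (M : YG T₀ hT) :
    Mono (((M : Matrix.GeneralLinearGroup (Fin 2) F)) : Matrix (Fin 2) (Fin 2) F) := by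
  rcases YG_cases M with ⟨a, _, h⟩ | ⟨a, _, h⟩ <;> rw [h]
  · rw [dg_val]
    refine ⟨?_, ?_, ?_⟩ <;> simp
  · rw [ag_val]
    refine ⟨?_, ?_, ?_⟩ <;> simp


end Mono

/-! ### the action -/

section Act

variable {F : Type} [Field F] {p : ℕ} {ψ : Multiplicative F →* rootsOfUnity p ℂ}

/-- the action of a matrix on the Heisenberg group -/
def actF (M : Matrix (Fin 2) (Fin 2) F) (a : Hs ψ) : Hs ψ where
  x := M 0 0 * a.x + M 0 1 * a.y
  y := M 1 0 * a.x + M 1 1 * a.y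
  z := a.z * ps ψ (M 0 1 * M 1 0 * (a.x * a.y))

theorem actF_one (a : Hs ψ) : actF 1 a = a := by
  ext1
  · simp [actF]
  · simp [actF]
  · simp [actF, ps_zero]

theorem actF_mul {M : Matrix (Fin 2) (Fin 2) F} (hM : Mono M) (a b : Hs ψ) :
    actF M (a * b) = actF M a * actF M b := by
  obtain ⟨h1, h2, h3⟩ := hM
  ext1
  · simp only [actF, mul_x, mul_y]
    ring
  · simp only [actF, mul_x, mul_y]
    ring
  · simp only [actF, mul_x, mul_y, mul_z]
    have key : ps ψ (a.y * b.x) * ps ψ (M 0 1 * M 1 0 * ((a.x + b.x) * (a.y + b.y))) =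
        ps ψ (M 0 1 * M 1 0 * (a.x * a.y)) * ps ψ (M 0 1 * M 1 0 * (b.x * b.y)) *
          ps ψ ((M 1 0 * a.x + M 1 1 * a.y) * (M 0 0 * b.x + M 0 1 * b.y)) := by
      rw [← ps_add, ← ps_add, ← ps_add]
      congr 1
      linear_combination (-(a.x * b.x)) * h1 - (a.y * b.y) * h2 - (a.y * b.x) * h3
    calc a.z * b.z * ps ψ (a.y * b.x) * ps ψ (M 0 1 * M 1 0 * ((a.x + b.x) * (a.y + b.y)))
        = a.z * b.z * (ps ψ (a.y * b.x) *
            ps ψ (M 0 1 * M 1 0 * ((a.x + b.x) * (a.y + b.y)))) := by rw [mul_assoc (a.z * b.z)]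
      _ = _ := by
        rw [key]
        simp only [mul_assoc, mul_left_comm, mul_comm]

theorem actF_comp {M N : Matrix (Fin 2) (Fin 2) F} (hM : Mono M) (hN : Mono N) (a : Hs ψ) :
    actF (M * N) a = actF M (actF N a) := by
  obtain ⟨h1, h2, h3⟩ := hM
  obtain ⟨g1, g2, g3⟩ := hN
  ext1
  · simp only [actF, Matrix.mul_apply, Fin.sum_univ_two]
    ring
  · simp only [actF, Matrix.mul_apply, Fin.sum_univ_two]
    ring
  · have key : (M * N) 0 1 * (M * N) 1 0 * (a.x * a.y) = N 0 1 * N 1 0 * (a.x * a.y) +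
        M 0 1 * M 1 0 * ((N 0 0 * a.x + N 0 1 * a.y) * (N 1 0 * a.x + N 1 1 * a.y)) := by
      simp only [Matrix.mul_apply, Fin.sum_univ_two]
      linear_combination
        (N 0 1 * N 0 0 * (a.x * a.y)) * h1 + (N 1 1 * N 1 0 * (a.x * a.y)) * h2 +
        (N 0 1 * N 1 0 * (a.x * a.y)) * h3
        - (M 0 1 * M 1 0 * a.x ^ 2) * g1 - (M 0 1 * M 1 0 * a.y ^ 2) * g2
    change a.z * ps ψ ((M * N) 0 1 * (M * N) 1 0 * (a.x * a.y)) = _
    rw [key, ps_add, ← mul_assoc]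
    rfl

end Act

end Pool.Agent.H31.Thr.Fou
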