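import Pool.Agent.H12.Fou.A

/-!
The operators (as matrices) and the representation.
-/

open Finset

namespace Pool.Agent.H31.Thr.Fou

set_option linter.unusedSectionVars false

section Phi

variable {F : Type} [Field F] {p : ℕ}

/-- the matrix of an element -/
def mt {T₀ : Subgroup Fˣ} {hT : -1 ∈ T₀} (M : YG T₀ hT) : Matrix (Fin 2) (Fin 2) F :=
  ((M : Matrix.GeneralLinearGroup (Fin 2) F) : Matrix (Fin 2) (Fin 2) F)

theorem mt_mul {T₀ : Subgroup Fˣ} {hT : -1 ∈ T₀} (M N : YG T₀ hT) : mt (M * N) = mt M * mt N := rfl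

theorem mt_one {T₀ : Subgroup Fˣ} {hT : -1 ∈ T₀} : mt (1 : YG T₀ hT) = 1 := rfl

/-- the action by automorphisms -/
def phi (T₀ : Subgroup Fˣ) (hT : -1 ∈ T₀) (ψ : Multiplicative F →* rootsOfUnity p ℂ) :
    YG T₀ hT →* MulAut (Hs ψ) where
  toFun M :=
    { toFun := actF (mt M)
      invFun := actF (mt M⁻¹)
      left_inv := by
        intro a
        have h := (actF_comp (YG_mono M⁻¹) (YG_mono M) a).symm
        refine h.trans ?_
        change actF (mt (M⁻¹ * M)) a = a
        rw [inv_mul_cancel, mt_one, actF_one]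
      right_inv := by
        intro a
        have h := (actF_comp (YG_mono M) (YG_mono M⁻¹) a).symm
        refine h.trans ?_
        change actF (mt (M * M⁻¹)) a = a
        rw [mul_inv_cancel, mt_one, actF_one]
      map_mul' := actF_mul (YG_mono _) }
  map_one' := by
    apply MulEquiv.ext
    intro a
    exact actF_one a
  map_mul' M N := by
    apply MulEquiv.ext
    intro a
    exact actF_comp (YG_mono _) (YG_mono _) a

theorem phi_apply (T₀ : Subgroup Fˣ) (hT : -1 ∈ T₀) (ψ : Multiplicative F →* rootsOfUnity p ℂ)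
    (M : YG T₀ hT) (a : Hs ψ) : phi T₀ hT ψ M a = actF (mt M) a := rfl

end Phi

section Mats

variable {F : Type} [Field F] [Fintype F] [DecidableEq F] {p : ℕ}

/-- value in `ℂ` -/
def cv (z : rootsOfUnity p ℂ) : ℂ := ((z : ℂˣ) : ℂ)

theorem cv_mul (a b : rootsOfUnity p ℂ) : cv (a * b) = cv a * cv b := rfl

theorem cv_one : cv (1 : rootsOfUnity p ℂ) = 1 := rfl

theorem norm_cv [NeZero p] (a : rootsOfUnity p ℂ) : ‖cv a‖ = 1 := by
  have h : (cv a) ^ p = 1 := by
    have h1 := a.2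
    rw [mem_rootsOfUnity] at h1
    have h2 := congrArg (fun u : ℂˣ => (u : ℂ)) h1
    exact h2
  exact Complex.norm_eq_one_of_pow_eq_one h (NeZero.ne p)

/-- the normalising constant -/
noncomputable def cst (F : Type) [Fintype F] : ℂ := ((Real.sqrt (Fintype.card F) : ℝ) : ℂ)⁻¹

theorem cst_mul : cst F * cst F * (Fintype.card F : ℂ) = 1 := by
  unfold cst
  have h : (0 : ℝ) < Fintype.card F := by exact_mod_cast Fintype.card_pos
  have h1 : ((Real.sqrt (Fintype.card F) : ℝ) : ℂ) * ((Real.sqrt (Fintype.card F) : ℝ) : ℂ) =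
      (Fintype.card F : ℂ) := by
    rw [← Complex.ofReal_mul, Real.mul_self_sqrt h.le]
    simp
  have h2 : ((Real.sqrt (Fintype.card F) : ℝ) : ℂ) ≠ 0 := by
    rw [Complex.ofReal_ne_zero]
    exact (Real.sqrt_pos.2 h).ne'
  rw [← h1]
  field_simp

theorem norm_cst : ‖cst F‖ ^ 2 * (Fintype.card F : ℝ) = 1 := by
  have h := congrArg norm (cst_mul (F := F))
  rw [norm_mul, norm_mul, norm_one, Complex.norm_natCast] at h
  rw [sq]
  exact h

/-- the matrix of an element of the Heisenberg group -/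
def mE {ψ : Multiplicative F →* rootsOfUnity p ℂ} (a : Hs ψ) : Matrix F F ℂ :=
  Matrix.of fun i j => if i = j + a.x then cv (a.z * ps ψ (a.y * j)) else 0

theorem mE_apply {ψ : Multiplicative F →* rootsOfUnity p ℂ} (a : Hs ψ) (i j : F) :
    mE a i j = if i = j + a.x then cv (a.z * ps ψ (a.y * j)) else 0 := rfl

/-- dilations -/
def dM (t : F) : Matrix F F ℂ := Matrix.of fun i j => if i = t * j then 1 else 0

theorem dM_apply (t i j : F) : dM t i j = if i = t * j then 1 else 0 := rfl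

/-- Fourier transform -/
noncomputable def wM (ψ : Multiplicative F →* rootsOfUnity p ℂ) (t : F) : Matrix F F ℂ :=
  Matrix.of fun i j => cst F * cv (ps ψ (t * i * j))

theorem wM_apply (ψ : Multiplicative F →* rootsOfUnity p ℂ) (t i j : F) :
    wM ψ t i j = cst F * cv (ps ψ (t * i * j)) := rfl

/-- the matrix of a monomial matrix -/
noncomputable def mY (ψ : Multiplicative F →* rootsOfUnity p ℂ) (M : Matrix (Fin 2) (Fin 2) F) :
    Matrix F F ℂ :=
  if M 1 0 = 0 then dM (M 0 0) else wM ψ (M 1 0)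

theorem mY_dg (ψ : Multiplicative F →* rootsOfUnity p ℂ) (a : Fˣ) :
    mY ψ (dg a : Matrix (Fin 2) (Fin 2) F) = dM (a : F) := by
  have h0 : (dg a : Matrix (Fin 2) (Fin 2) F) 1 0 = 0 := rfl
  have h1 : (dg a : Matrix (Fin 2) (Fin 2) F) 0 0 = a := rfl
  unfold mY
  rw [if_pos h0, h1]

theorem mY_ag (ψ : Multiplicative F →* rootsOfUnity p ℂ) (a : Fˣ) :
    mY ψ (ag a : Matrix (Fin 2) (Fin 2) F) = wM ψ (a : F) := by
  have h0 : (ag a : Matrix (Fin 2) (Fin 2) F) 1 0 = a := rfl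
  unfold mY
  rw [h0, if_neg a.ne_zero]

theorem mE_one {ψ : Multiplicative F →* rootsOfUnity p ℂ} : mE (1 : Hs ψ) = 1 := by
  ext i j
  rw [mE_apply, one_x, one_y, one_z, add_zero, zero_mul, ps_zero, mul_one, cv_one, Matrix.one_apply]

theorem sum_single {f : F → ℂ} (j₀ : F) (h : ∀ j, j ≠ j₀ → f j = 0) : ∑ j, f j = f j₀ :=
  Finset.sum_eq_single j₀ (fun j _ hj => h j hj) (fun h => absurd (Finset.mem_univ _) h)

theorem mE_mul {ψ : Multiplicative F →* rootsOfUnity p ℂ} (a b : Hs ψ) :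
    mE (a * b) = mE a * mE b := by
  ext i k
  rw [Matrix.mul_apply, sum_single (k + b.x) (by
    intro j hj
    rw [mE_apply b, if_neg hj, mul_zero])]
  rw [mE_apply, mE_apply, mE_apply, if_pos (rfl : k + b.x = k + b.x), mul_x, mul_y, mul_z]
  have h1 : k + (a.x + b.x) = k + b.x + a.x := by ring
  rw [h1]
  by_cases h : i = k + b.x + a.x
  · rw [if_pos h, if_pos h, ← cv_mul]
    congr 1
    have h2 : ps ψ (a.y * (k + b.x)) * ps ψ (b.y * k) =
        ps ψ (a.y * b.x) * ps ψ ((a.y + b.y) * k) := by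
      rw [← ps_add, ← ps_add]
      congr 1
      ring
    calc a.z * b.z * ps ψ (a.y * b.x) * ps ψ ((a.y + b.y) * k)
        = a.z * b.z * (ps ψ (a.y * b.x) * ps ψ ((a.y + b.y) * k)) := by
          rw [mul_assoc (a.z * b.z)]
      _ = a.z * ps ψ (a.y * (k + b.x)) * (b.z * ps ψ (b.y * k)) := by
          rw [← h2]
          simp only [mul_assoc, mul_left_comm]
  · rw [if_neg h, if_neg h, zero_mul]

/-- orthogonality hypothesis: the character is primitive -/
def Prim (ψ : Multiplicative F →* rootsOfUnity p ℂ) : Prop :=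
  ∀ b : F, ∑ x : F, cv (ps ψ (x * b)) = if b = 0 then (Fintype.card F : ℂ) else 0

theorem mY_mul {T₀ : Subgroup Fˣ} {hT : -1 ∈ T₀} {ψ : Multiplicative F →* rootsOfUnity p ℂ}
    (hψ : Prim ψ) (M N : YG T₀ hT) : mY ψ (mt (M * N)) = mY ψ (mt M) * mY ψ (mt N) := by
  have hv : ∀ M : YG T₀ hT, mt M = ((M : Matrix.GeneralLinearGroup (Fin 2) F) :
    Matrix (Fin 2) (Fin 2) F) := fun _ => rfl
  rcases YG_cases M with ⟨a, _, ha⟩ | ⟨a, _, ha⟩ <;> rcases YG_cases N with ⟨b, _, hb⟩ | ⟨b, _, hb⟩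
  · rw [hv, hv, hv, Subgroup.coe_mul, ha, hb, dg_mul_dg, mY_dg, mY_dg, mY_dg]
    ext i k
    rw [Matrix.mul_apply, sum_single ((b : F) * k) (by
      intro j hj
      rw [dM_apply (b : F), if_neg hj, mul_zero])]
    rw [dM_apply, dM_apply, dM_apply, if_pos (rfl : (b : F) * k = b * k), mul_one, Units.val_mul,
      mul_assoc]
  · rw [hv, hv, hv, Subgroup.coe_mul, ha, hb, dg_mul_ag, mY_dg, mY_ag, mY_ag]
    ext i k
    rw [Matrix.mul_apply, sum_single (((a⁻¹ : Fˣ) : F) * i) (by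
      intro j hj
      rw [dM_apply, if_neg, zero_mul]
      intro h
      apply hj
      rw [h, ← mul_assoc, Units.inv_mul, one_mul])]
    rw [dM_apply, wM_apply, wM_apply, if_pos (by rw [← mul_assoc, Units.mul_inv, one_mul]), one_mul,
      Units.val_mul, mul_assoc (b : F)]
  · rw [hv, hv, hv, Subgroup.coe_mul, ha, hb, ag_mul_dg, mY_ag, mY_ag, mY_dg]
    ext i k
    rw [Matrix.mul_apply, sum_single ((b : F) * k) (by
      intro j hj
      rw [dM_apply (b : F), if_neg hj, mul_zero])]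
    rw [dM_apply, wM_apply, wM_apply, if_pos (rfl : (b : F) * k = b * k), mul_one, Units.val_mul]
    congr 3
    ring
  · rw [hv, hv, hv, Subgroup.coe_mul, ha, hb, ag_mul_ag, mY_dg, mY_ag, mY_ag]
    ext i k
    rw [Matrix.mul_apply]
    have h1 : ∀ j : F, wM ψ (a : F) i j * wM ψ (b : F) j k =
        cst F * cst F * cv (ps ψ (j * (a * i + b * k))) := by
      intro j
      rw [wM_apply, wM_apply, mul_mul_mul_comm, ← cv_mul, ← ps_add]
      congr 3
      ring
    rw [Finset.sum_congr rfl fun j _ => h1 j, ← Finset.mul_sum, hψ]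
    have h2 : (i = ((-1 * (b * a⁻¹) : Fˣ) : F) * k) ↔ ((a : F) * i + b * k = 0) := by
      rw [Units.val_mul, Units.val_mul, Units.val_neg, Units.val_one]
      constructor
      · intro h
        rw [h]
        have h3 : (a : F) * ((a⁻¹ : Fˣ) : F) = 1 := Units.mul_inv a
        linear_combination (-(b : F) * k) * h3
      · intro h
        have h3 : ((a⁻¹ : Fˣ) : F) * (a : F) = 1 := Units.inv_mul a
        linear_combination ((a⁻¹ : Fˣ) : F) * h - i * h3
    rw [dM_apply]
    by_cases h : (a : F) * i + b * k = 0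
    · rw [if_pos h, if_pos (h2.2 h), cst_mul]
    · rw [if_neg h, if_neg (fun h' => h (h2.1 h')), mul_zero]

theorem mY_one {ψ : Multiplicative F →* rootsOfUnity p ℂ} :
    mY ψ (1 : Matrix (Fin 2) (Fin 2) F) = 1 := by
  have h := mY_dg ψ (1 : Fˣ)
  rw [dg_one] at h
  rw [Units.val_one] at h
  rw [h]
  ext i j
  rw [dM_apply, Units.val_one, one_mul, Matrix.one_apply]

theorem mY_conj {T₀ : Subgroup Fˣ} {hT : -1 ∈ T₀} {ψ : Multiplicative F →* rootsOfUnity p ℂ}
    (M : YG T₀ hT) (a : Hs ψ) : mY ψ (mt M) * mE a = mE (actF (mt M) a) * mY ψ (mt M) := by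
  have hv : ∀ M : YG T₀ hT, mt M = ((M : Matrix.GeneralLinearGroup (Fin 2) F) :
    Matrix (Fin 2) (Fin 2) F) := fun _ => rfl
  rcases YG_cases M with ⟨t, _, ht⟩ | ⟨t, _, ht⟩
  · rw [hv, ht, mY_dg]
    have hact : actF (dg t : Matrix (Fin 2) (Fin 2) F) a =
        ⟨t * a.x, ((t⁻¹ : Fˣ) : F) * a.y, a.z⟩ := by
      ext1
      · simp [actF, dg_val]
      · simp [actF, dg_val]
      · simp [actF, dg_val, ps_zero]
    rw [hact]
    ext i k
    rw [Matrix.mul_apply, Matrix.mul_apply, sum_single (k + a.x) (by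
      intro j hj
      rw [mE_apply, if_neg hj, mul_zero]), sum_single ((t : F) * k) (by
      intro j hj
      rw [dM_apply, if_neg hj, mul_zero])]
    rw [dM_apply, dM_apply, mE_apply, mE_apply, if_pos (rfl : k + a.x = k + a.x),
      if_pos (rfl : (t : F) * k = t * k), mul_one]
    have h1 : ((t⁻¹ : Fˣ) : F) * a.y * (t * k) = a.y * k := by
      have h3 : ((t⁻¹ : Fˣ) : F) * (t : F) = 1 := Units.inv_mul t
      linear_combination (a.y * k) * h3
    change (if i = t * (k + a.x) then (1 : ℂ) else 0) * cv (a.z * ps ψ (a.y * k)) =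
      if i = t * k + t * a.x then cv (a.z * ps ψ (((t⁻¹ : Fˣ) : F) * a.y * (t * k))) else 0
    rw [h1, ← mul_add, ite_mul, one_mul, zero_mul]
  · rw [hv, ht, mY_ag]
    have hact : actF (ag t : Matrix (Fin 2) (Fin 2) F) a =
        ⟨-(((t⁻¹ : Fˣ) : F) * a.y), t * a.x, a.z * ps ψ (-(a.x * a.y))⟩ := by
      ext1
      · simp [actF, ag_val]
      · simp [actF, ag_val]
      · simp [actF, ag_val]
    rw [hact]
    ext i k
    rw [Matrix.mul_apply, Matrix.mul_apply, sum_single (k + a.x) (by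
      intro j hj
      rw [mE_apply, if_neg hj, mul_zero]), sum_single (i + ((t⁻¹ : Fˣ) : F) * a.y) (by
      intro j hj
      rw [mE_apply, if_neg, zero_mul]
      intro h
      apply hj
      change i = j + -(((t⁻¹ : Fˣ) : F) * a.y) at h
      rw [h]
      ring)]
    rw [wM_apply, wM_apply, mE_apply, mE_apply, if_pos (rfl : k + a.x = k + a.x)]
    rw [if_pos (by
      change i = i + ((t⁻¹ : Fˣ) : F) * a.y + -(((t⁻¹ : Fˣ) : F) * a.y)
      ring)]
    change cst F * cv (ps ψ (t * i * (k + a.x))) * cv (a.z * ps ψ (a.y * k)) =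
      cv (a.z * ps ψ (-(a.x * a.y)) * ps ψ (t * a.x * (i + ((t⁻¹ : Fˣ) : F) * a.y))) *
        (cst F * cv (ps ψ (t * (i + ((t⁻¹ : Fˣ) : F) * a.y) * k)))
    rw [mul_assoc, ← cv_mul, mul_left_comm (cv _) (cst F), ← cv_mul]
    congr 2
    have h3 : ((t⁻¹ : Fˣ) : F) * (t : F) = 1 := Units.inv_mul t
    have key : ps ψ (t * i * (k + a.x)) * ps ψ (a.y * k) =
        ps ψ (-(a.x * a.y)) * ps ψ (t * a.x * (i + ((t⁻¹ : Fˣ) : F) * a.y)) *
        ps ψ (t * (i + ((t⁻¹ : Fˣ) : F) * a.y) * k) := by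
      rw [← ps_add, ← ps_add, ← ps_add]
      congr 1
      linear_combination (-(a.x * a.y) - a.y * k) * h3
    calc ps ψ (t * i * (k + a.x)) * (a.z * ps ψ (a.y * k))
        = a.z * (ps ψ (t * i * (k + a.x)) * ps ψ (a.y * k)) := by rw [mul_left_comm]
      _ = _ := by
        rw [key]
        simp only [mul_assoc]

/-- the representation by matrices -/
noncomputable def mat {T₀ : Subgroup Fˣ} {hT : -1 ∈ T₀}
    {ψ : Multiplicative F →* rootsOfUnity p ℂ} (hψ : Prim ψ) :
    (Hs ψ) ⋊[phi T₀ hT ψ] (YG T₀ hT) →* Matrix F F ℂ where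
  toFun g := mE g.left * mY ψ (mt g.right)
  map_one' := by
    rw [SemidirectProduct.one_left, SemidirectProduct.one_right, mE_one, mt_one, mY_one, one_mul]
  map_mul' g h := by
    rw [SemidirectProduct.mul_left, SemidirectProduct.mul_right, phi_apply, mE_mul, mY_mul hψ,
      mul_assoc, ← mul_assoc (mE (actF _ _)), ← mY_conj]
    simp only [mul_assoc]

theorem mat_apply {T₀ : Subgroup Fˣ} {hT : -1 ∈ T₀}
    {ψ : Multiplicative F →* rootsOfUnity p ℂ} (hψ : Prim ψ)
    (g : (Hs ψ) ⋊[phi T₀ hT ψ] (YG T₀ hT)) :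
    mat hψ g = mE g.left * mY ψ (mt g.right) := rfl

end Mats

end Pool.Agent.H31.Thr.Fou
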