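import Pool.Agent.H12.Fou.B

/-!
Traces: averages over the Heisenberg group, bounds for monomial matrices.
-/

open Finset

namespace Pool.Agent.H31.Thr.Fou

set_option linter.unusedSectionVars false

variable {F : Type} [Field F] [Fintype F] [DecidableEq F] {p : ℕ} [NeZero p]

theorem conj_cv (a : rootsOfUnity p ℂ) : (starRingEnd ℂ) (cv a) = cv a⁻¹ := by
  have h1 : cv a * cv a⁻¹ = 1 := by rw [← cv_mul, mul_inv_cancel, cv_one]
  have h2 : cv a * (starRingEnd ℂ) (cv a) = 1 := by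
    rw [Complex.mul_conj', norm_cv]
    simp
  have h3 : cv a ≠ 0 := left_ne_zero_of_mul_eq_one h1
  exact mul_left_cancel₀ h3 (h2.trans h1.symm)

theorem ps_neg (ψ : Multiplicative F →* rootsOfUnity p ℂ) (a : F) : ps ψ (-a) = (ps ψ a)⁻¹ := by
  rw [eq_inv_iff_mul_eq_one, ← ps_add, neg_add_cancel, ps_zero]

theorem parseval {ψ : Multiplicative F →* rootsOfUnity p ℂ} (hψ : Prim ψ) (g : F → ℂ) :
    ∑ y : F, ‖∑ j : F, cv (ps ψ (y * j)) * g j‖ ^ 2 = (Fintype.card F : ℝ) * ∑ j : F, ‖g j‖ ^ 2 := by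
  apply Complex.ofReal_injective
  push_cast
  have h1 : ∀ y : F, ((‖∑ j : F, cv (ps ψ (y * j)) * g j‖ : ℂ)) ^ 2 =
      ∑ j : F, ∑ k : F, g j * (starRingEnd ℂ) (g k) * cv (ps ψ (y * (j - k))) := by
    intro y
    rw [← Complex.mul_conj', map_sum, Finset.sum_mul_sum]
    apply Finset.sum_congr rfl
    intro j _
    apply Finset.sum_congr rfl
    intro k _
    rw [map_mul, conj_cv, ← ps_neg, mul_mul_mul_comm, ← cv_mul, ← ps_add, mul_comm]
    congr 3
    ring
  rw [Finset.sum_congr rfl fun y _ => h1 y, Finset.sum_comm]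
  have h2 : ∀ j : F, ∑ y : F, ∑ k : F, g j * (starRingEnd ℂ) (g k) * cv (ps ψ (y * (j - k))) =
      (Fintype.card F : ℂ) * (‖g j‖ : ℂ) ^ 2 := by
    intro j
    rw [Finset.sum_comm]
    have h3 : ∀ k : F, ∑ y : F, g j * (starRingEnd ℂ) (g k) * cv (ps ψ (y * (j - k))) =
        if k = j then (Fintype.card F : ℂ) * (‖g j‖ : ℂ) ^ 2 else 0 := by
      intro k
      rw [← Finset.mul_sum, hψ]
      by_cases h : k = j
      · rw [h, if_pos (sub_self j), if_pos rfl, Complex.mul_conj', mul_comm]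
      · rw [if_neg (sub_ne_zero.2 (Ne.symm h)), if_neg h, mul_zero]
    rw [Finset.sum_congr rfl fun k _ => h3 k, Finset.sum_ite_eq' Finset.univ j,
      if_pos (Finset.mem_univ _)]
  rw [Finset.sum_congr rfl fun j _ => h2 j, ← Finset.mul_sum]

/-- square of the Frobenius norm -/
noncomputable def fr (A : Matrix F F ℂ) : ℝ := ∑ i : F, ∑ j : F, ‖A i j‖ ^ 2

theorem fr_dM (t : Fˣ) : fr (dM (t : F)) = Fintype.card F := by
  unfold fr
  rw [Finset.sum_comm]
  have h : ∀ j : F, ∑ i : F, ‖dM (t : F) i j‖ ^ 2 = 1 := by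
    intro j
    rw [Finset.sum_eq_single ((t : F) * j)]
    · rw [dM_apply, if_pos rfl]
      simp
    · intro i _ hi
      rw [dM_apply, if_neg hi]
      simp
    · intro h
      exact absurd (Finset.mem_univ _) h
  rw [Finset.sum_congr rfl fun j _ => h j, Finset.sum_const, Finset.card_univ]
  simp

theorem fr_wM (ψ : Multiplicative F →* rootsOfUnity p ℂ) (t : F) :
    fr (wM ψ t) = Fintype.card F := by
  unfold fr
  have h : ∀ i j : F, ‖wM ψ t i j‖ ^ 2 = ‖cst F‖ ^ 2 := by
    intro i j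
    rw [wM_apply, norm_mul, norm_cv, mul_one]
  simp only [h, Finset.sum_const, Finset.card_univ, nsmul_eq_mul]
  have h2 := norm_cst (F := F)
  calc (Fintype.card F : ℝ) * ((Fintype.card F : ℝ) * ‖cst F‖ ^ 2)
      = (Fintype.card F : ℝ) * (‖cst F‖ ^ 2 * (Fintype.card F : ℝ)) := by ring
    _ = _ := by rw [h2, mul_one]

theorem mE_mul_apply {ψ : Multiplicative F →* rootsOfUnity p ℂ} (a : Hs ψ) (A : Matrix F F ℂ)
    (i k : F) : (mE a * A) (i + a.x) k = cv (a.z * ps ψ (a.y * i)) * A i k := by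
  rw [Matrix.mul_apply, sum_single i (by
    intro j hj
    rw [mE_apply, if_neg, zero_mul]
    intro h
    exact hj (add_right_cancel h).symm)]
  rw [mE_apply, if_pos rfl]

theorem fr_mE_mul {ψ : Multiplicative F →* rootsOfUnity p ℂ} (a : Hs ψ) (A : Matrix F F ℂ) :
    fr (mE a * A) = fr A := by
  unfold fr
  rw [← Equiv.sum_comp (Equiv.addRight a.x)]
  apply Finset.sum_congr rfl
  intro i _
  apply Finset.sum_congr rfl
  intro k _
  rw [Equiv.coe_addRight, mE_mul_apply, norm_mul, norm_cv, one_mul]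

theorem trace_mE_mul {ψ : Multiplicative F →* rootsOfUnity p ℂ} (a : Hs ψ) (A : Matrix F F ℂ) :
    (mE a * A).trace = cv a.z * ∑ i : F, cv (ps ψ (a.y * i)) * A i (i + a.x) := by
  rw [Matrix.trace, ← Equiv.sum_comp (Equiv.addRight a.x), Finset.mul_sum]
  apply Finset.sum_congr rfl
  intro i _
  rw [Matrix.diag_apply, Equiv.coe_addRight, mE_mul_apply, cv_mul, mul_assoc]

theorem sum_trace {ψ : Multiplicative F →* rootsOfUnity p ℂ} (hψ : Prim ψ) (A : Matrix F F ℂ)
    [Fintype (Hs ψ)] :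
    ∑ a : Hs ψ, ‖(mE a * A).trace‖ ^ 2 = (p : ℝ) * (Fintype.card F : ℝ) * fr A := by
  classical
  have : Fintype (rootsOfUnity p ℂ) := Fintype.ofFinite _
  have h1 : ∀ a : Hs ψ, ‖(mE a * A).trace‖ ^ 2 =
      ‖∑ i : F, cv (ps ψ (a.y * i)) * A i (i + a.x)‖ ^ 2 := by
    intro a
    rw [trace_mE_mul, norm_mul, norm_cv, one_mul]
  rw [Finset.sum_congr rfl fun a _ => h1 a]
  refine (Fintype.sum_equiv (Hs.equiv ψ) _
    (fun u : F × F × rootsOfUnity p ℂ => ‖∑ i : F, cv (ps ψ (u.2.1 * i)) * A i (i + u.1)‖ ^ 2)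
    (fun a => rfl)).trans ?_
  rw [Fintype.sum_prod_type]
  have h2 : ∀ x : F, ∑ u : F × rootsOfUnity p ℂ,
      ‖∑ i : F, cv (ps ψ (u.1 * i)) * A i (i + x)‖ ^ 2 =
      (p : ℝ) * ((Fintype.card F : ℝ) * ∑ i : F, ‖A i (i + x)‖ ^ 2) := by
    intro x
    rw [Fintype.sum_prod_type]
    simp only [Finset.sum_const, Finset.card_univ, nsmul_eq_mul]
    rw [← Finset.mul_sum, parseval hψ (fun i => A i (i + x))]
    congr 2
    rw [← Nat.card_eq_fintype_card]
    exact Complex.card_rootsOfUnity p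
  rw [Finset.sum_congr rfl fun x _ => h2 x, ← Finset.mul_sum, ← Finset.mul_sum, ← mul_assoc]
  congr 1
  unfold fr
  rw [Finset.sum_comm]
  apply Finset.sum_congr rfl
  intro i _
  exact Equiv.sum_comp (Equiv.addLeft i) (fun k => ‖A i k‖ ^ 2)

theorem trace_dM {t : Fˣ} (ht : t ≠ 1) : (dM (t : F)).trace = 1 := by
  rw [Matrix.trace, sum_single 0]
  · rw [Matrix.diag_apply, dM_apply, mul_zero, if_pos rfl]
  · intro j hj
    rw [Matrix.diag_apply, dM_apply, if_neg]
    intro h
    apply ht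
    have h1 : (1 : F) * j = t * j := by rw [one_mul]; exact h
    have h2 := mul_right_cancel₀ hj h1
    exact Units.ext h2.symm

theorem norm_gauss {ψ : Multiplicative F →* rootsOfUnity p ℂ} (hψ : Prim ψ) (t : Fˣ) :
    ‖∑ i : F, cv (ps ψ (t * i * i))‖ ^ 2 ≤ (Fintype.card F : ℝ) := by
  by_cases h2 : (2 : F) = 0
  · have hz : ∑ i : F, cv (ps ψ (t * i * i)) = 0 := by
      have hinj : Function.Injective (fun i : F => (t : F) * i * i) := by
        intro i j hij
        have hij' : (t : F) * i * i = t * j * j := hij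
        have h3 : (t : F) * ((i - j) * (i - j)) = 0 := by
          linear_combination hij' + (t * j * j - t * i * j) * h2
        have h4 := (mul_eq_zero.1 h3).resolve_left t.ne_zero
        exact sub_eq_zero.1 (mul_self_eq_zero.1 h4)
      have hbij : Function.Bijective (fun i : F => (t : F) * i * i) :=
        Finite.injective_iff_bijective.1 hinj
      rw [Function.Bijective.sum_comp hbij (fun u : F => cv (ps ψ u))]
      have h5 := hψ 1
      rw [if_neg one_ne_zero] at h5
      simpa using h5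
    rw [hz, norm_zero, sq, mul_zero]
    exact Nat.cast_nonneg _
  · have h0 : ∀ b : F, ∑ x : F, cv (ps ψ (b * x)) = if b = 0 then (Fintype.card F : ℂ) else 0 := by
      intro b
      rw [← hψ b]
      apply Finset.sum_congr rfl
      intro x _
      rw [mul_comm]
    have key : ((‖∑ i : F, cv (ps ψ (t * i * i))‖ : ℂ)) ^ 2 = (Fintype.card F : ℂ) := by
      rw [← Complex.mul_conj', map_sum, Finset.sum_mul_sum, Finset.sum_comm]
      have h3 : ∀ j : F, ∑ i : F, cv (ps ψ (t * i * i)) * (starRingEnd ℂ) (cv (ps ψ (t * j * j))) =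
          ∑ d : F, cv (ps ψ (t * d * d)) * cv (ps ψ ((2 * t * d) * j)) := by
        intro j
        rw [← Equiv.sum_comp (Equiv.addRight j)]
        apply Finset.sum_congr rfl
        intro d _
        rw [Equiv.coe_addRight, conj_cv, ← ps_neg, ← cv_mul, ← cv_mul, ← ps_add, ← ps_add]
        congr 2
        ring
      rw [Finset.sum_congr rfl fun j _ => h3 j, Finset.sum_comm]
      have h4 : ∀ d : F, ∑ j : F, cv (ps ψ (t * d * d)) * cv (ps ψ ((2 * t * d) * j)) =
          if d = 0 then (Fintype.card F : ℂ) else 0 := by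
        intro d
        rw [← Finset.mul_sum, h0]
        by_cases hd : d = 0
        · rw [hd, if_pos (mul_zero _), if_pos rfl, mul_zero, ps_zero, cv_one, one_mul]
        · rw [if_neg (mul_ne_zero (mul_ne_zero h2 t.ne_zero) hd), if_neg hd, mul_zero]
      rw [Finset.sum_congr rfl fun d _ => h4 d, Finset.sum_ite_eq' Finset.univ (0 : F),
        if_pos (Finset.mem_univ _)]
    have h5 : ‖∑ i : F, cv (ps ψ (t * i * i))‖ ^ 2 = (Fintype.card F : ℝ) := by
      apply Complex.ofReal_injective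
      push_cast
      exact key
    exact h5.le

theorem trace_wM {ψ : Multiplicative F →* rootsOfUnity p ℂ} (hψ : Prim ψ) (t : Fˣ) :
    ‖(wM ψ (t : F)).trace‖ ≤ 1 := by
  have h1 : (wM ψ (t : F)).trace = cst F * ∑ i : F, cv (ps ψ (t * i * i)) := by
    rw [Matrix.trace, Finset.mul_sum]
    rfl
  have h2 := norm_gauss hψ t
  have h3 := norm_cst (F := F)
  have h4 : ‖(wM ψ (t : F)).trace‖ ^ 2 ≤ 1 := by
    rw [h1, norm_mul, mul_pow, ← h3]
    exact mul_le_mul_of_nonneg_left h2 (by positivity)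
  exact (sq_le_one_iff₀ (norm_nonneg _)).1 h4

end Pool.Agent.H31.Thr.Fou
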