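import Pool.Agent.H12.Fou.C

/-!
Group theory of the semidirect product.
-/

open Finset

namespace Pool.Agent.H31.Thr.Fou

set_option linter.unusedSectionVars false

/-! ### the character -/

section Char

variable (F : Type) [Field F] [Fintype F] [DecidableEq F] (p : ℕ) [NeZero p] [CharP F p]

/-- a primitive character with values in the roots of unity -/
noncomputable def chr : Multiplicative F →* rootsOfUnity p ℂ where
  toFun x := rootsOfUnity.mkOfPowEq (AddChar.FiniteField.primitiveChar_to_Complex F x.toAdd) (by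
    rw [← AddChar.map_nsmul_eq_pow, nsmul_eq_mul, CharP.cast_eq_zero, zero_mul,
      AddChar.map_zero_eq_one])
  map_one' := by
    apply Subtype.ext
    apply Units.ext
    rw [rootsOfUnity.val_mkOfPowEq_coe]
    exact AddChar.map_zero_eq_one _
  map_mul' a b := by
    apply Subtype.ext
    apply Units.ext
    rw [rootsOfUnity.val_mkOfPowEq_coe, Subgroup.coe_mul, Units.val_mul,
      rootsOfUnity.val_mkOfPowEq_coe, rootsOfUnity.val_mkOfPowEq_coe]
    exact AddChar.map_add_eq_mul _ _ _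

theorem cv_chr (a : F) : cv (ps (chr F p) a) = AddChar.FiniteField.primitiveChar_to_Complex F a := by
  unfold cv ps chr
  exact rootsOfUnity.val_mkOfPowEq_coe _ _

theorem prim_chr : Prim (chr F p) := by
  intro b
  simp only [cv_chr]
  have h := AddChar.sum_mulShift b (AddChar.FiniteField.primitiveChar_to_Complex_isPrimitive F)
  rw [h]
  split_ifs <;> simp

end Char

section Grp

variable {F : Type} [Field F] {p : ℕ}

theorem cen_mul (ψ : Multiplicative F →* rootsOfUnity p ℂ) (z : rootsOfUnity p ℂ) (a : Hs ψ) :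
    cen ψ z * a = a * cen ψ z := by
  ext1
  · simp
  · simp
  · simp only [mul_z, cen_y, cen_x, cen_z, zero_mul, mul_zero, ps_zero, mul_one]
    rw [mul_comm]

theorem eq_cen_mul {ψ : Multiplicative F →* rootsOfUnity p ℂ} (a : Hs ψ) {x y : F} (hx : a.x = x)
    (hy : a.y = y) : a = cen ψ a.z * ⟨x, y, 1⟩ := by
  ext1
  · simp [hx]
  · simp [hy]
  · simp only [mul_z, cen_y, cen_z, zero_mul, ps_zero, mul_one]

theorem eq_cen {ψ : Multiplicative F →* rootsOfUnity p ℂ} (a : Hs ψ) (hx : a.x = 0)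
    (hy : a.y = 0) : a = cen ψ a.z := by
  ext1
  · simp [hx]
  · simp [hy]
  · simp

theorem actF_cen {ψ : Multiplicative F →* rootsOfUnity p ℂ} (M : Matrix (Fin 2) (Fin 2) F)
    (z : rootsOfUnity p ℂ) : actF M (cen ψ z) = cen ψ z := by
  ext1
  · simp [actF]
  · simp [actF]
  · simp [actF, ps_zero]

variable (T₀ : Subgroup Fˣ) (hT : -1 ∈ T₀)

/-- diagonal matrices as a homomorphism -/
def dgH : T₀ →* YG T₀ hT where
  toFun a := ⟨dg a, Or.inl ⟨a, a.2, rfl⟩⟩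
  map_one' := Subtype.ext dg_one
  map_mul' a b := Subtype.ext (dg_mul_dg (a : Fˣ) b).symm

/-- antidiagonal matrices -/
def agF (a : T₀) : YG T₀ hT := ⟨ag a, Or.inr ⟨a, a.2, rfl⟩⟩

open Classical in
/-- the sign -/
noncomputable def sg : YG T₀ hT →* ℤˣ where
  toFun M := if mt M 1 0 = 0 then 1 else -1
  map_one' := by
    rw [if_pos]
    rw [mt_one]
    simp
  map_mul' M N := by
    have hv : ∀ M : YG T₀ hT, mt M = ((M : Matrix.GeneralLinearGroup (Fin 2) F) :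
      Matrix (Fin 2) (Fin 2) F) := fun _ => rfl
    have hd : ∀ a : Fˣ, (dg a : Matrix (Fin 2) (Fin 2) F) 1 0 = 0 := fun a => rfl
    have hg : ∀ a : Fˣ, (ag a : Matrix (Fin 2) (Fin 2) F) 1 0 ≠ 0 := fun a => a.ne_zero
    rcases YG_cases M with ⟨a, _, ha⟩ | ⟨a, _, ha⟩ <;>
      rcases YG_cases N with ⟨b, _, hb⟩ | ⟨b, _, hb⟩
    · rw [hv, hv, hv, Subgroup.coe_mul, ha, hb, dg_mul_dg, if_pos (hd _), if_pos (hd _),
        if_pos (hd _), one_mul]
    · rw [hv, hv, hv, Subgroup.coe_mul, ha, hb, dg_mul_ag, if_neg (hg _), if_pos (hd _),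
        if_neg (hg _), one_mul]
    · rw [hv, hv, hv, Subgroup.coe_mul, ha, hb, ag_mul_dg, if_neg (hg _), if_neg (hg _),
        if_pos (hd _), mul_one]
    · rw [hv, hv, hv, Subgroup.coe_mul, ha, hb, ag_mul_ag, if_pos (hd _), if_neg (hg _),
        if_neg (hg _)]
      rfl

theorem YG_solv : Group.IsSolvable (YG T₀ hT) := by
  apply Group.isSolvable_of_ker_le_range (dgH T₀ hT) (sg T₀ hT)
  intro M hM
  rcases YG_cases M with ⟨a, h1, ha⟩ | ⟨a, h1, ha⟩
  · exact ⟨⟨a, h1⟩, Subtype.ext ha.symm⟩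
  · exfalso
    have h2 : sg T₀ hT M = 1 := hM
    have h3 : mt M 1 0 ≠ 0 := by
      have hv : mt M = ((M : Matrix.GeneralLinearGroup (Fin 2) F) :
        Matrix (Fin 2) (Fin 2) F) := rfl
      rw [hv, ha]
      exact a.ne_zero
    have h4 : sg T₀ hT M = -1 := if_neg h3
    rw [h4] at h2
    exact absurd h2 (by decide)

theorem card_YG [Finite F] : Nat.card (YG T₀ hT) = 2 * Nat.card T₀ := by
  have hbij : Function.Bijective (Sum.elim (fun a : T₀ => dgH T₀ hT a) (fun a : T₀ => agF T₀ hT a)) := by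
    constructor
    · rintro (a | a) (b | b) h
      · congr 1
        exact Subtype.ext (dg_inj (congrArg Subtype.val h))
      · exact absurd (congrArg Subtype.val h) (dg_ne_ag (a : Fˣ) b)
      · exact absurd (congrArg Subtype.val h).symm (dg_ne_ag (b : Fˣ) a)
      · congr 1
        exact Subtype.ext (ag_inj (congrArg Subtype.val h))
    · intro M
      rcases YG_cases M with ⟨a, h1, ha⟩ | ⟨a, h1, ha⟩
      · exact ⟨Sum.inl ⟨a, h1⟩, Subtype.ext ha.symm⟩
      · exact ⟨Sum.inr ⟨a, h1⟩, Subtype.ext ha.symm⟩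
  rw [← Nat.card_congr (Equiv.ofBijective _ hbij), Nat.card_sum, two_mul]

variable (ψ : Multiplicative F →* rootsOfUnity p ℂ)

/-- the group -/
abbrev GG := (Hs ψ) ⋊[phi T₀ hT ψ] (YG T₀ hT)

instance [Finite F] [NeZero p] : Finite (GG T₀ hT ψ) :=
  Finite.of_equiv _ (SemidirectProduct.equivProd).symm

theorem GG_solv : Group.IsSolvable (GG T₀ hT ψ) := by
  have := YG_solv T₀ hT
  exact Group.isSolvable_of_ker_le_range (SemidirectProduct.inl : Hs ψ →* GG T₀ hT ψ)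
    SemidirectProduct.rightHom (SemidirectProduct.range_inl_eq_ker_rightHom).ge

/-- the subgroup `E` -/
def subE : Subgroup (GG T₀ hT ψ) := (SemidirectProduct.inl : Hs ψ →* GG T₀ hT ψ).range

/-- the subgroup `Y` -/
def subY : Subgroup (GG T₀ hT ψ) := (SemidirectProduct.inr : YG T₀ hT →* GG T₀ hT ψ).range

/-- the centre -/
def subZ : Subgroup (GG T₀ hT ψ) := ((SemidirectProduct.inl : Hs ψ →* GG T₀ hT ψ).comp (cen ψ)).range

theorem mem_subE {g : GG T₀ hT ψ} : g ∈ subE T₀ hT ψ ↔ ∃ a, SemidirectProduct.inl a = g := Iff.rfl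

theorem mem_subZ {g : GG T₀ hT ψ} :
    g ∈ subZ T₀ hT ψ ↔ ∃ z, SemidirectProduct.inl (cen ψ z) = g := Iff.rfl

theorem mem_subY {g : GG T₀ hT ψ} : g ∈ subY T₀ hT ψ ↔ ∃ a, SemidirectProduct.inr a = g := Iff.rfl

theorem inl_mem_subZ {a : Hs ψ} :
    (SemidirectProduct.inl a : GG T₀ hT ψ) ∈ subZ T₀ hT ψ ↔ a.x = 0 ∧ a.y = 0 := by
  constructor
  · rintro ⟨z, hz⟩
    have h := SemidirectProduct.inl_injective hz
    rw [← h]
    exact ⟨rfl, rfl⟩
  · rintro ⟨h1, h2⟩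
    exact ⟨a.z, congrArg (SemidirectProduct.inl : Hs ψ →* GG T₀ hT ψ) (eq_cen a h1 h2).symm⟩

/-- the character of the centre -/
def nu : subZ T₀ hT ψ →* ℂˣ where
  toFun g := ((g : GG T₀ hT ψ).left.z : ℂˣ)
  map_one' := rfl
  map_mul' g h := by
    obtain ⟨g, z, rfl⟩ := g
    obtain ⟨h, w, rfl⟩ := h
    change (((SemidirectProduct.inl (cen ψ z) * SemidirectProduct.inl (cen ψ w) :
      GG T₀ hT ψ)).left.z : ℂˣ) = _
    rw [← map_mul, SemidirectProduct.left_inl, ← map_mul]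
    rfl

theorem subZ_center : subZ T₀ hT ψ ≤ Subgroup.center (GG T₀ hT ψ) := by
  rintro _ ⟨z, rfl⟩
  rw [Subgroup.mem_center_iff]
  intro g
  apply SemidirectProduct.ext
  · rw [SemidirectProduct.mul_left, SemidirectProduct.mul_left]
    change g.left * actF (mt g.right) (cen ψ z) = cen ψ z * actF 1 g.left
    rw [actF_cen, actF_one, cen_mul]
  · rw [SemidirectProduct.mul_right, SemidirectProduct.mul_right]
    change g.right * 1 = 1 * g.right
    rw [mul_one, one_mul]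

theorem subZ_le : subZ T₀ hT ψ ≤ subE T₀ hT ψ := by
  rintro _ ⟨z, rfl⟩
  exact ⟨cen ψ z, rfl⟩

theorem nu_inj : Function.Injective (nu T₀ hT ψ) := by
  rintro ⟨g, z, rfl⟩ ⟨h, w, rfl⟩ he
  have h1 : z = w := Subtype.ext he
  subst h1
  rfl

theorem disj : subE T₀ hT ψ ⊓ subY T₀ hT ψ = ⊥ := by
  rw [eq_bot_iff]
  rintro g ⟨⟨a, ha⟩, ⟨M, hM⟩⟩
  have h1 : a = 1 := by
    have h := congrArg SemidirectProduct.left (ha.trans hM.symm)
    exact h
  rw [← ha, h1, map_one]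
  exact Subgroup.one_mem _

theorem prod (g : GG T₀ hT ψ) : ∃ e ∈ subE T₀ hT ψ, ∃ y ∈ subY T₀ hT ψ, g = e * y :=
  ⟨SemidirectProduct.inl g.left, ⟨_, rfl⟩, SemidirectProduct.inr g.right, ⟨_, rfl⟩,
    (SemidirectProduct.inl_left_mul_inr_right g).symm⟩

theorem comm : ∀ x ∈ subE T₀ hT ψ, ∀ y ∈ subE T₀ hT ψ, x * y * x⁻¹ * y⁻¹ ∈ subZ T₀ hT ψ := by
  rintro _ ⟨a, rfl⟩ _ ⟨b, rfl⟩
  rw [← map_mul, ← map_inv, ← map_mul, ← map_inv, ← map_mul, inl_mem_subZ]
  constructor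
  · simp
  · simp

theorem nondeg [Fintype F] [DecidableEq F] (hψ : Prim ψ) : ∀ a ∈ subE T₀ hT ψ, a ∉ subZ T₀ hT ψ →
    ∃ c ∈ subE T₀ hT ψ, a * c ≠ c * a := by
  rintro _ ⟨a, rfl⟩ ha
  rw [inl_mem_subZ, not_and_or] at ha
  have hex : ∀ b : F, b ≠ 0 → ∃ x : F, ps ψ (x * b) ≠ 1 := by
    intro b hb
    by_contra hc
    push Not at hc
    have h := hψ b
    rw [if_neg hb] at h
    simp only [hc, cv_one, Finset.sum_const, Finset.card_univ, nsmul_eq_mul, mul_one] at h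
    exact absurd h (by exact_mod_cast Fintype.card_ne_zero)
  rcases ha with ha | ha
  · obtain ⟨y, hy⟩ := hex a.x ha
    refine ⟨SemidirectProduct.inl ⟨0, y, 1⟩, ⟨_, rfl⟩, ?_⟩
    rw [← map_mul, ← map_mul]
    intro h
    have h1 := congrArg Hs.z (SemidirectProduct.inl_injective h)
    simp only [mul_z, mul_zero, ps_zero, mul_one, one_mul] at h1
    exact hy (mul_eq_left.1 h1.symm)
  · obtain ⟨y, hy⟩ := hex a.y ha
    refine ⟨SemidirectProduct.inl ⟨y, 0, 1⟩, ⟨_, rfl⟩, ?_⟩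
    rw [← map_mul, ← map_mul]
    intro h
    have h1 := congrArg Hs.z (SemidirectProduct.inl_injective h)
    simp only [mul_z, zero_mul, ps_zero, mul_one, one_mul] at h1
    rw [mul_comm] at hy
    exact hy (mul_eq_left.1 h1)

theorem card_Z [NeZero p] : Nat.card (subZ T₀ hT ψ) = p := by
  have hinj : Function.Injective ((SemidirectProduct.inl : Hs ψ →* GG T₀ hT ψ).comp (cen ψ)) := by
    intro z w h
    exact congrArg Hs.z (SemidirectProduct.inl_injective h)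
  have h := Nat.card_congr (MonoidHom.ofInjective hinj).toEquiv
  unfold subZ
  rw [← h]
  exact Complex.card_rootsOfUnity p

theorem card_E [Fintype F] [NeZero p] : Nat.card (subE T₀ hT ψ) = Fintype.card F ^ 2 * p := by
  have h := Nat.card_congr (MonoidHom.ofInjective
    (SemidirectProduct.inl_injective (φ := phi T₀ hT ψ))).toEquiv
  unfold subE
  rw [← h, Nat.card_congr (Hs.equiv ψ), Nat.card_prod, Nat.card_prod, Nat.card_eq_fintype_card,
    Complex.card_rootsOfUnity, sq, mul_assoc]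

theorem card_Y [Finite F] : Nat.card (subY T₀ hT ψ) = 2 * Nat.card T₀ := by
  have h := Nat.card_congr (MonoidHom.ofInjective
    (SemidirectProduct.inr_injective (φ := phi T₀ hT ψ))).toEquiv
  unfold subY
  rw [← h, card_YG]

/-- the projection -/
def prj : GG T₀ hT ψ →* Matrix.GeneralLinearGroup (Fin 2) F :=
  (YG T₀ hT).subtype.comp SemidirectProduct.rightHom

theorem prj_ker : (prj T₀ hT ψ).ker = subE T₀ hT ψ := by
  unfold subE
  rw [SemidirectProduct.range_inl_eq_ker_rightHom]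
  ext g
  rw [MonoidHom.mem_ker, MonoidHom.mem_ker]
  constructor
  · intro h
    exact Subtype.ext h
  · intro h
    change ((SemidirectProduct.rightHom g : YG T₀ hT) : Matrix.GeneralLinearGroup (Fin 2) F) = 1
    rw [h]
    rfl

/-- the coordinates -/
def xx (v : Fin 2 → F) : GG T₀ hT ψ := SemidirectProduct.inl ⟨v 0, v 1, 1⟩

theorem xx_mem_iff (v : Fin 2 → F) : xx T₀ hT ψ v ∈ subZ T₀ hT ψ ↔ v = 0 := by
  unfold xx
  rw [inl_mem_subZ]
  constructor
  · rintro ⟨h0, h1⟩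
    funext i
    fin_cases i
    · exact h0
    · exact h1
  · rintro rfl
    exact ⟨rfl, rfl⟩

theorem rep_aux (a : Hs ψ) (v : Fin 2 → F) (h0 : a.x = v 0) (h1 : a.y = v 1) :
    ∃ z ∈ subZ T₀ hT ψ, (SemidirectProduct.inl a : GG T₀ hT ψ) = z * xx T₀ hT ψ v := by
  refine ⟨SemidirectProduct.inl (cen ψ a.z), ⟨_, rfl⟩, ?_⟩
  unfold xx
  rw [← map_mul]
  exact congrArg _ (eq_cen_mul a h0 h1)

theorem xx_rep : ∀ e ∈ subE T₀ hT ψ, ∃ v, ∃ z ∈ subZ T₀ hT ψ, e = z * xx T₀ hT ψ v := by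
  rintro _ ⟨a, rfl⟩
  exact ⟨![a.x, a.y], rep_aux T₀ hT ψ a _ rfl rfl⟩

theorem xx_add (v v' : Fin 2 → F) : ∃ z ∈ subZ T₀ hT ψ,
    xx T₀ hT ψ v * xx T₀ hT ψ v' = z * xx T₀ hT ψ (v + v') := by
  have h := rep_aux T₀ hT ψ (⟨v 0, v 1, 1⟩ * ⟨v' 0, v' 1, 1⟩ : Hs ψ) (v + v') rfl rfl
  rw [map_mul] at h
  exact h

theorem xx_act (g : GG T₀ hT ψ) (v : Fin 2 → F) : ∃ z ∈ subZ T₀ hT ψ,
    g * xx T₀ hT ψ v * g⁻¹ =
      z * xx T₀ hT ψ (Matrix.mulVec (prj T₀ hT ψ g : Matrix (Fin 2) (Fin 2) F) v) := by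
  have h1 : g * xx T₀ hT ψ v * g⁻¹ =
      SemidirectProduct.inl (g.left * actF (mt g.right) ⟨v 0, v 1, 1⟩ * (g.left)⁻¹) := by
    have h2 : (SemidirectProduct.inl (actF (mt g.right) ⟨v 0, v 1, 1⟩) : GG T₀ hT ψ) =
        SemidirectProduct.inr g.right * SemidirectProduct.inl ⟨v 0, v 1, 1⟩ *
          SemidirectProduct.inr g.right⁻¹ :=
      SemidirectProduct.inl_aut g.right (⟨v 0, v 1, 1⟩ : Hs ψ)
    rw [map_mul, map_mul, h2, map_inv, map_inv]
    unfold xx
    conv_lhs => rw [← SemidirectProduct.inl_left_mul_inr_right g]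
    rw [mul_inv_rev]
    simp only [mul_assoc]
  rw [h1]
  apply rep_aux
  · simp only [mul_x, inv_x]
    rw [add_comm g.left.x, add_neg_cancel_right]
    change mt g.right 0 0 * v 0 + mt g.right 0 1 * v 1 = Matrix.mulVec (mt g.right) v 0
    rw [Matrix.mulVec, dotProduct, Fin.sum_univ_two]
  · simp only [mul_y, inv_y]
    rw [add_comm g.left.y, add_neg_cancel_right]
    change mt g.right 1 0 * v 0 + mt g.right 1 1 * v 1 = Matrix.mulVec (mt g.right) v 1
    rw [Matrix.mulVec, dotProduct, Fin.sum_univ_two]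

theorem prj_range (M : Matrix.GeneralLinearGroup (Fin 2) F) : M ∈ (prj T₀ hT ψ).range ↔
    (∃ a ∈ T₀, (M : Matrix (Fin 2) (Fin 2) F) = !![(a : F), 0; 0, ((a⁻¹ : Fˣ) : F)]) ∨
    (∃ a ∈ T₀, (M : Matrix (Fin 2) (Fin 2) F) = !![0, -((a⁻¹ : Fˣ) : F); (a : F), 0]) := by
  have h1 : M ∈ (prj T₀ hT ψ).range ↔ M ∈ YG T₀ hT := by
    constructor
    · rintro ⟨g, rfl⟩
      exact (SemidirectProduct.rightHom g : YG T₀ hT).2
    · intro h
      exact ⟨SemidirectProduct.inr ⟨M, h⟩, rfl⟩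
  rw [h1]
  constructor
  · rintro (⟨a, ha, rfl⟩ | ⟨a, ha, rfl⟩)
    · exact Or.inl ⟨a, ha, dg_val a⟩
    · exact Or.inr ⟨a, ha, ag_val a⟩
  · rintro (⟨a, ha, h⟩ | ⟨a, ha, h⟩)
    · exact Or.inl ⟨a, ha, Units.ext h⟩
    · exact Or.inr ⟨a, ha, Units.ext h⟩

end Grp

end Pool.Agent.H31.Thr.Fou
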