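import Pool.Agent.H12.Fou.D

/-!
The representation of the semidirect product.
-/

open Finset

namespace Pool.Agent.H31.Thr.Fou

set_option linter.unusedSectionVars false

variable {F : Type} [Field F] [Fintype F] [DecidableEq F] {p : ℕ} [NeZero p]
variable (T₀ : Subgroup Fˣ) (hT : -1 ∈ T₀) {ψ : Multiplicative F →* rootsOfUnity p ℂ}

/-- the representation -/
noncomputable def om (hψ : Prim ψ) : Representation ℂ (GG T₀ hT ψ) (F → ℂ) :=
  (Matrix.toLinAlgEquiv' (R := ℂ) (n := F)).toMulEquiv.toMonoidHom.comp (mat hψ)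

theorem om_apply (hψ : Prim ψ) (g : GG T₀ hT ψ) :
    om T₀ hT hψ g = Matrix.toLin' (mat hψ g) := rfl

theorem om_char (hψ : Prim ψ) (g : GG T₀ hT ψ) :
    (om T₀ hT hψ).character g = (mat hψ g).trace := by
  unfold Representation.character
  rw [om_apply, Matrix.trace_toLin'_eq]

theorem mat_inl (hψ : Prim ψ) (a : Hs ψ) :
    mat hψ (SemidirectProduct.inl a : GG T₀ hT ψ) = mE a := by
  rw [mat_apply, SemidirectProduct.left_inl, SemidirectProduct.right_inl, mt_one, mY_one, mul_one]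

theorem mat_inr (hψ : Prim ψ) (M : YG T₀ hT) :
    mat hψ (SemidirectProduct.inr M : GG T₀ hT ψ) = mY ψ (mt M) := by
  rw [mat_apply, SemidirectProduct.left_inr, SemidirectProduct.right_inr, mE_one, one_mul]

theorem fr_mat (hψ : Prim ψ) (g : GG T₀ hT ψ) : fr (mat hψ g) = Fintype.card F := by
  rw [mat_apply, fr_mE_mul]
  have hv : mt g.right = ((g.right : Matrix.GeneralLinearGroup (Fin 2) F) :
    Matrix (Fin 2) (Fin 2) F) := rfl
  rcases YG_cases g.right with ⟨a, _, ha⟩ | ⟨a, _, ha⟩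
  · rw [hv, ha, mY_dg, fr_dM]
  · rw [hv, ha, mY_ag, fr_wM]

theorem om_scalar (hψ : Prim ψ) (z : subZ T₀ hT ψ) :
    om T₀ hT hψ z = ((nu T₀ hT ψ z : ℂˣ) : ℂ) • LinearMap.id := by
  obtain ⟨z, w, rfl⟩ := z
  rw [om_apply]
  change Matrix.toLin' (mat hψ (SemidirectProduct.inl (cen ψ w) : GG T₀ hT ψ)) = cv w • LinearMap.id
  rw [mat_inl]
  have h : mE (cen ψ w) = cv w • (1 : Matrix F F ℂ) := by
    ext i j
    rw [mE_apply, Matrix.smul_apply, Matrix.one_apply, cen_x, cen_y, cen_z, add_zero, zero_mul,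
      ps_zero, mul_one, smul_eq_mul, mul_ite, mul_one, mul_zero]
  rw [h, map_smul, Matrix.toLin'_one]

theorem om_small (hψ : Prim ψ) : ∀ y ∈ subY T₀ hT ψ, y ≠ 1 → ‖(om T₀ hT hψ).character y‖ ≤ 1 := by
  rintro _ ⟨M, rfl⟩ hy
  rw [om_char]
  rw [mat_inr]
  have hv : mt M = ((M : Matrix.GeneralLinearGroup (Fin 2) F) :
    Matrix (Fin 2) (Fin 2) F) := rfl
  rcases YG_cases M with ⟨a, _, ha⟩ | ⟨a, _, ha⟩
  · rw [hv, ha, mY_dg, trace_dM, norm_one]
    rintro rfl
    apply hy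
    have h1 : M = 1 := Subtype.ext (ha.trans dg_one)
    rw [h1, map_one]
  · rw [hv, ha, mY_ag]
    exact trace_wM hψ a

/-- `E` as a group -/
noncomputable def eqv : Hs ψ ≃ subE T₀ hT ψ :=
  (MonoidHom.ofInjective (SemidirectProduct.inl_injective (φ := phi T₀ hT ψ))).toEquiv

theorem eqv_val (a : Hs ψ) : ((eqv T₀ hT a : subE T₀ hT ψ) : GG T₀ hT ψ) =
    SemidirectProduct.inl a := rfl

theorem om_avg (hψ : Prim ψ) (g : GG T₀ hT ψ) :
    nrm (fun e : subE T₀ hT ψ => (om T₀ hT hψ).character (e * g)) = 1 := by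
  classical
  have : Fintype (Hs ψ) := Fintype.ofFinite _
  have : Fintype (subE T₀ hT ψ) := Fintype.ofFinite _
  rw [nrm_eq]
  have hs : ∑ e : subE T₀ hT ψ, ‖(om T₀ hT hψ).character (e * g)‖ ^ 2 =
      ∑ a : Hs ψ, ‖(mE a * mat hψ g).trace‖ ^ 2 := by
    symm
    refine Fintype.sum_equiv (eqv T₀ hT) _
      (fun e : subE T₀ hT ψ => ‖(om T₀ hT hψ).character (e * g)‖ ^ 2) ?_
    intro a
    rw [eqv_val, om_char, map_mul, mat_inl]
  rw [hs, sum_trace hψ, fr_mat, card_E]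
  have hq : (Fintype.card F : ℝ) ≠ 0 := by exact_mod_cast Fintype.card_ne_zero
  have hp : (p : ℝ) ≠ 0 := by exact_mod_cast NeZero.ne p
  push_cast
  field_simp

end Pool.Agent.H31.Thr.Fou
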